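import Pool.Agent.Helper55.CF.Goals

set_option autoImplicit false

open MeasureTheory Complex Filter Topology
open scoped ContDiff ComplexConjugate

noncomputable section
namespace CF55.H37

open CF55

/-! ### integrability lemmas -/

theorem int_inv_norm (R : ℝ) : Integrable (fun w : ℂ => if ‖w‖ ≤ R then ‖w‖⁻¹ else 0) := by
  have h := (integrable_fun_norm_addHaar (E := ℂ) (volume : Measure ℂ)
    (f := fun y : ℝ => if y ≤ R then y⁻¹ else 0)).mpr
  refine h ?_
  have h1 : IntegrableOn (fun _ : ℝ => (1 : ℝ)) (Set.Ioc 0 R) := by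
    simp
  have h2 : IntegrableOn (Set.indicator (Set.Ioc 0 R) (fun _ : ℝ => (1 : ℝ))) (Set.Ioi 0) := by
    rw [IntegrableOn, integrable_indicator_iff measurableSet_Ioc]
    exact h1.restrict
  refine h2.congr_fun ?_ measurableSet_Ioi
  intro y hy
  have hy' : (0 : ℝ) < y := hy
  simp only [Complex.finrank_real_complex, smul_eq_mul]
  by_cases hR : y ≤ R
  · rw [Set.indicator_of_mem (by exact ⟨hy', hR⟩)]
    simp only [hR, if_true]
    field_simp
    norm_num
  · rw [Set.indicator_of_notMem (by rintro ⟨_, h⟩; exact hR h)]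
    simp only [hR, if_false, mul_zero]

theorem int_tail (ε : ℝ) (hε : 0 < ε) :
    Integrable (fun w : ℂ => if ε ≤ ‖w‖ then (‖w‖ ^ 8)⁻¹ else 0) := by
  have h1 : Integrable (fun x : ℂ => (1 + ‖x‖) ^ (-(8 : ℝ))) :=
    integrable_one_add_norm (by rw [Complex.finrank_real_complex]; norm_num)
  have h2 : Integrable (fun x : ℂ => ((1 + ε) / ε) ^ 8 * (1 + ‖x‖) ^ (-(8 : ℝ))) := h1.const_mul _
  refine h2.mono' ?_ (ae_of_all _ fun x => ?_)
  · refine Measurable.aestronglyMeasurable ?_
    exact Measurable.ite (measurableSet_le measurable_const measurable_norm)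
      ((measurable_norm.pow_const 8).inv) measurable_const
  · split_ifs with h
    · have hx : 0 < ‖x‖ := hε.trans_le h
      rw [Real.norm_of_nonneg (by positivity), Real.rpow_neg (by positivity)]
      have e1 : (1 + ‖x‖) ^ (8 : ℝ) = (1 + ‖x‖) ^ 8 := by
        rw [← Real.rpow_natCast]; norm_num
      rw [e1, ← div_eq_mul_inv, div_pow, inv_eq_one_div, div_div,
        div_le_div_iff₀ (by positivity) (by positivity), one_mul]
      rw [← mul_pow, ← mul_pow]
      refine pow_le_pow_left₀ (by positivity) ?_ 8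
      nlinarith
    · rw [norm_zero]
      positivity

theorem int_phi {φ : Z → ℝ} (hφ : Continuous φ) (hφc : HasCompactSupport φ) :
    Integrable (fun z => φ z / ‖z 0‖) := by
  obtain ⟨R, hR⟩ := hφc.isCompact.isBounded.subset_closedBall (0 : Z)
  obtain ⟨M, hM⟩ := hφc.exists_bound_of_continuous hφ
  have hM0 : 0 ≤ M := (norm_nonneg _).trans (hM 0)
  have h1 : Integrable (fun w : ℂ => if ‖w‖ ≤ R then (1 : ℝ) else 0) := by
    have : Integrable (Set.indicator (Metric.closedBall (0 : ℂ) R) (fun _ => (1 : ℝ))) := by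
      rw [integrable_indicator_iff Metric.isClosed_closedBall.measurableSet]
      exact integrableOn_const (measure_closedBall_lt_top).ne
    refine this.congr (ae_of_all _ fun w => ?_)
    by_cases hw : ‖w‖ ≤ R
    · rw [Set.indicator_of_mem (by simpa using hw)]
      simp [hw]
    · rw [Set.indicator_of_notMem (by simpa using hw)]
      simp [hw]
  have h2 : Integrable (fun z : Z => ∏ i, (![fun w : ℂ => if ‖w‖ ≤ R then ‖w‖⁻¹ else 0,
      fun w : ℂ => if ‖w‖ ≤ R then (1 : ℝ) else 0,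
      fun w : ℂ => if ‖w‖ ≤ R then (1 : ℝ) else 0] : Fin 3 → ℂ → ℝ) i (z i)) := by
    rw [volume_pi]
    refine Integrable.fintype_prod (fun i => ?_)
    fin_cases i
    · exact int_inv_norm R
    · exact h1
    · exact h1
  have h3 := h2.const_mul M
  refine h3.mono' ?_ (ae_of_all _ fun z => ?_)
  · exact (hφ.measurable.div (measurable_norm.comp (measurable_pi_apply 0))).aestronglyMeasurable
  · by_cases hz : z ∈ tsupport φ
    · have hz1 := hR hz
      rw [mem_closedBall_zero_iff] at hz1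
      have hzi : ∀ i, ‖z i‖ ≤ R := fun i => (norm_le_pi_norm z i).trans hz1
      rw [Fin.prod_univ_three]
      simp only [Matrix.cons_val_zero, Matrix.cons_val_one, Matrix.cons_val]
      simp only [hzi, if_true, mul_one]
      rw [norm_div, norm_norm, div_eq_mul_inv]
      exact mul_le_mul_of_nonneg_right (hM z) (by positivity)
    · rw [image_eq_zero_of_notMem_tsupport hz, zero_div, norm_zero]
      refine mul_nonneg hM0 (Finset.prod_nonneg fun i _ => ?_)
      fin_cases i <;> simp <;> split_ifs <;> positivity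

theorem ae_ne (i : Fin 3) : ∀ᵐ z : Z, z i ≠ 0 := by
  have h := Measure.pi_hyperplane (fun _ : Fin 3 => (volume : Measure ℂ)) i (0 : ℂ)
  rw [← volume_pi] at h
  exact compl_mem_ae_iff.mpr h

/-! ### the Gaussian integral -/

/-- norm and limit of the right hand side of the Gaussian formula -/
def gs (α β : ℂ) (ε : ℝ) : ℂ :=
  (Real.pi / Real.sqrt (ε ^ 2 + ‖α‖ ^ 2) : ℝ) *
      cexp (-((ε * ‖β‖ ^ 2 : ℝ) + I * ((conj α * β ^ 2).re : ℂ)) / ((ε ^ 2 + ‖α‖ ^ 2 : ℝ) : ℂ))

theorem gs_norm (α β : ℂ) (ε : ℝ) (hε : 0 < ε) (hα : α ≠ 0) :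
    ‖gs α β ε‖ ≤ Real.pi / ‖α‖ := by
  have hα' : 0 < ‖α‖ := norm_pos_iff.mpr hα
  unfold gs
  rw [norm_mul, Complex.norm_real, Real.norm_of_nonneg (by positivity), Complex.norm_exp]
  have h1 : (-((ε * ‖β‖ ^ 2 : ℝ) + I * ((conj α * β ^ 2).re : ℂ)) /
      ((ε ^ 2 + ‖α‖ ^ 2 : ℝ) : ℂ)).re ≤ 0 := by
    rw [Complex.div_ofReal_re]
    refine div_nonpos_of_nonpos_of_nonneg ?_ (by positivity)
    rw [Complex.neg_re, Complex.add_re, Complex.ofReal_re, Complex.I_mul_re, Complex.ofReal_im]
    have : 0 ≤ ε * ‖β‖ ^ 2 := by positivity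
    linarith
  have h2 : Real.exp (-((ε * ‖β‖ ^ 2 : ℝ) + I * ((conj α * β ^ 2).re : ℂ)) /
      ((ε ^ 2 + ‖α‖ ^ 2 : ℝ) : ℂ)).re ≤ 1 := Real.exp_le_one_iff.mpr h1
  have h3 : ‖α‖ ≤ Real.sqrt (ε ^ 2 + ‖α‖ ^ 2) := by
    refine Real.le_sqrt_of_sq_le ?_
    nlinarith [sq_nonneg ε]
  calc Real.pi / Real.sqrt (ε ^ 2 + ‖α‖ ^ 2) * _ ≤ Real.pi / Real.sqrt (ε ^ 2 + ‖α‖ ^ 2) * 1 :=
        mul_le_mul_of_nonneg_left h2 (by positivity)
    _ ≤ Real.pi / ‖α‖ := by
        rw [mul_one]
        exact div_le_div_of_nonneg_left Real.pi_pos.le hα' h3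

theorem gs_lim (α β : ℂ) (hα : α ≠ 0) {e : ℕ → ℝ} (he : Tendsto e atTop (𝓝 0)) :
    Tendsto (fun n => gs α β (e n)) atTop
      (𝓝 ((Real.pi / ‖α‖ : ℝ) * cexp (-(I * ((β ^ 2 / α).re : ℂ))))) := by
  have hα' : 0 < ‖α‖ := norm_pos_iff.mpr hα
  have hcont : ContinuousAt (fun ε : ℝ => gs α β ε) 0 := by
    unfold gs
    have h0 : ((0 : ℝ) ^ 2 + ‖α‖ ^ 2) ≠ 0 := by positivity
    have h1 : ContinuousAt (fun ε : ℝ => Real.pi / Real.sqrt (ε ^ 2 + ‖α‖ ^ 2)) 0 := by
      refine ContinuousAt.div continuousAt_const (by fun_prop) ?_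
      exact (Real.sqrt_pos.mpr (by positivity)).ne'
    refine ContinuousAt.mul (Complex.continuous_ofReal.continuousAt.comp h1) ?_
    refine Complex.continuous_exp.continuousAt.comp ?_
    refine ContinuousAt.div (by fun_prop) (by fun_prop) ?_
    exact_mod_cast h0
  have h2 : gs α β 0 = (Real.pi / ‖α‖ : ℝ) * cexp (-(I * ((β ^ 2 / α).re : ℂ))) := by
    unfold gs
    have e1 : Real.sqrt (0 ^ 2 + ‖α‖ ^ 2) = ‖α‖ := by
      rw [zero_pow two_ne_zero, zero_add, Real.sqrt_sq hα'.le]
    rw [e1]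
    congr 2
    have e2 : (β ^ 2 / α).re = (conj α * β ^ 2).re / ‖α‖ ^ 2 := by
      rw [← Complex.div_ofReal_re]
      congr 1
      rw [div_eq_div_iff hα (by
        have : ‖α‖ ^ 2 ≠ 0 := by positivity
        exact_mod_cast this)]
      push_cast
      rw [← Complex.mul_conj', mul_comm (conj α)]
      ring
    rw [e2]
    push_cast
    simp
    ring
  rw [← h2]
  exact hcont.tendsto.comp he

/-! ### the main argument -/

theorem norm_osc (x : ℝ) : ‖cexp (I * (x : ℂ))‖ = 1 := by
  rw [mul_comm, Complex.norm_exp_ofReal_mul_I]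

theorem stmtD1 (hA : G_D1a) (hG : G_GAUSS) : G_D1 := by
  intro B C hB hC χ hχ hχc hχ01 hχ1
  obtain ⟨ε₀, hε₀, hball⟩ := Metric.eventually_nhds_iff.mp hχ1
  set ε : ℝ := ε₀ / 2 with hεdef
  have hε : 0 < ε := by positivity
  have hχε : ∀ x : ℂ, ‖x‖ ≤ ε → χ x = 1 := by
    intro x hx
    apply hball
    rw [dist_zero_right]
    linarith [half_lt_self hε₀]
  obtain ⟨r, hr, hA⟩ := hA B C hB hC ε hε
  refine ⟨r, hr, ?_⟩
  intro φ hφ hφc hφr
  have hφcont : Continuous φ := hφ.continuous
  have hφint : Integrable φ := hφcont.integrable_of_hasCompactSupport hφc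
  have hBc : Continuous B := hB.1.continuous
  have hCc : Continuous C := hC.1.continuous
  have hiphi := int_phi hφcont hφc
  refine ⟨hiphi, ?_⟩
  obtain ⟨K', hK'⟩ := hA φ hφ hφc hφr
  set M : ℝ := ∫ z, ‖φ z‖ with hM
  have hM0 : 0 ≤ M := integral_nonneg fun _ => norm_nonneg _
  set I8 : ℝ := ∫ w : ℂ, (if ε ≤ ‖w‖ then (‖w‖ ^ 8)⁻¹ else 0) with hI8
  refine ⟨|K'| * I8, ?_⟩
  intro σ hσ
  have hσ0 : 0 < ‖σ‖ := by linarith
  have hσne : σ ≠ 0 := norm_pos_iff.mp hσ0
  set osc : ℂ → Z → ℂ := fun x z =>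
    cexp (I * ((σ * (z 0 * x ^ 2 + 2 * B z * x + C z)).re : ℂ)) with hosc
  have hoscn : ∀ x z, ‖osc x z‖ = 1 := fun x z => norm_osc _
  have hosccont : Continuous (Function.uncurry osc) := by
    simp only [hosc]
    unfold Function.uncurry
    fun_prop
  set J : ℂ → ℂ := fun x => ∫ z : Z, osc x z * φ z with hJ
  have hJbound : ∀ x, ‖J x‖ ≤ M := by
    intro x
    refine (norm_integral_le_integral_norm _).trans (le_of_eq ?_)
    refine integral_congr_ae (ae_of_all _ fun z => ?_)
    simp only [norm_mul, hoscn, one_mul, Complex.norm_real]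
  have hJtail : ∀ x, ε ≤ ‖x‖ → ‖J x‖ ≤ |K'| / (‖σ‖ ^ 4 * ‖x‖ ^ 8) := by
    intro x hx
    refine (hK' σ x hσ hx).trans ?_
    exact div_le_div_of_nonneg_right (le_abs_self _) (by positivity)
  -- continuity of J
  have hJcont : Continuous J := by
    refine continuous_of_dominated (bound := fun z => ‖φ z‖) ?_ ?_ hφint.norm ?_
    · intro x
      exact ((hosccont.comp (Continuous.prodMk_right x)).mul
        (Complex.continuous_ofReal.comp hφcont)).aestronglyMeasurable
    · intro x
      refine ae_of_all _ fun z => ?_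
      rw [norm_mul, hoscn, one_mul, Complex.norm_real]
    · refine ae_of_all _ fun z => ?_
      exact (hosccont.comp (Continuous.prodMk_left z)).mul continuous_const
  -- Gaussians
  have hgint : ∀ e : ℝ, 0 < e → Integrable (fun x : ℂ => Real.exp (-(e * ‖x‖ ^ 2))) := by
    intro e he
    have h1 := (hG 0 0 e he).1.norm
    refine h1.congr (ae_of_all _ fun x => ?_)
    simp only [Complex.norm_exp]
    congr 1
    simp only [zero_mul, mul_zero, add_zero, Complex.zero_re, Complex.ofReal_zero, zero_sub,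
      Complex.neg_re]
    rw [← Complex.ofReal_pow, ← Complex.ofReal_mul, Complex.ofReal_re]
  set Ae : ℝ → ℂ := fun e => ∫ x : ℂ, (Real.exp (-(e * ‖x‖ ^ 2)) : ℂ) * J x with hAe
  set A : ℂ := ∫ x : ℂ, ∫ z : Z, osc x z * (χ x * φ z : ℝ) with hAdef
  have hA1 : A = ∫ x : ℂ, (χ x : ℂ) * J x := by
    simp only [hAdef, hJ]
    refine integral_congr_ae (ae_of_all _ fun x => ?_)
    simp only
    rw [← integral_const_mul]
    refine integral_congr_ae (ae_of_all _ fun z => ?_)
    simp only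
    push_cast
    ring
  have hχint : Integrable (fun x : ℂ => (χ x : ℂ) * J x) :=
    ((Complex.continuous_ofReal.comp hχ.continuous).mul hJcont).integrable_of_hasCompactSupport
      ((hχc.comp_left (g := fun t : ℝ => (t : ℂ)) Complex.ofReal_zero).mul_right)
  have heint : ∀ e : ℝ, 0 < e → Integrable (fun x : ℂ => (Real.exp (-(e * ‖x‖ ^ 2)) : ℂ) * J x) := by
    intro e he
    refine ((hgint e he).mul_const M).mono' ?_ (ae_of_all _ fun x => ?_)
    · refine (Continuous.mul ?_ hJcont).aestronglyMeasurable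
      fun_prop
    · rw [norm_mul, Complex.norm_real, Real.norm_of_nonneg (Real.exp_pos _).le]
      exact mul_le_mul_of_nonneg_left (hJbound x) (Real.exp_pos _).le
  set vol : ℝ := ∫ w : ℂ, (if ‖w‖ ≤ ε then (1 : ℝ) else 0) with hvol
  have hvolint : Integrable (fun w : ℂ => if ‖w‖ ≤ ε then (1 : ℝ) else 0) := by
    have : Integrable (Set.indicator (Metric.closedBall (0 : ℂ) ε) (fun _ => (1 : ℝ))) := by
      rw [integrable_indicator_iff Metric.isClosed_closedBall.measurableSet]
      exact integrableOn_const (measure_closedBall_lt_top).ne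
    refine this.congr (ae_of_all _ fun w => ?_)
    by_cases hw : ‖w‖ ≤ ε
    · rw [Set.indicator_of_mem (by simpa using hw)]
      simp [hw]
    · rw [Set.indicator_of_notMem (by simpa using hw)]
      simp [hw]
  -- step 1
  have step1 : ∀ e : ℝ, 0 < e → ‖A - Ae e‖ ≤ |K'| * I8 / ‖σ‖ ^ 4 + e * (ε ^ 2 * M * vol) := by
    intro e he
    rw [hA1, hAe, ← integral_sub hχint (heint e he)]
    have hb : Integrable (fun x : ℂ => (|K'| / ‖σ‖ ^ 4) * (if ε ≤ ‖x‖ then (‖x‖ ^ 8)⁻¹ else 0)
        + (e * (ε ^ 2 * M)) * (if ‖x‖ ≤ ε then (1 : ℝ) else 0)) :=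
      ((int_tail ε hε).const_mul _).add (hvolint.const_mul _)
    refine (norm_integral_le_of_norm_le hb (ae_of_all _ fun x => ?_)).trans (le_of_eq ?_)
    · rw [← sub_mul, norm_mul, ← Complex.ofReal_sub, Complex.norm_real]
      have hexp1 : Real.exp (-(e * ‖x‖ ^ 2)) ≤ 1 := Real.exp_le_one_iff.mpr (by
        have : 0 ≤ e * ‖x‖ ^ 2 := by positivity
        linarith)
      have hexp0 := Real.exp_pos (-(e * ‖x‖ ^ 2))
      have hχx := hχ01 x
      have hle1 : ‖χ x - Real.exp (-(e * ‖x‖ ^ 2))‖ ≤ 1 := by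
        rw [Real.norm_eq_abs, abs_le]
        constructor <;> linarith
      by_cases hx : ‖x‖ ≤ ε
      · have h2 : ‖χ x - Real.exp (-(e * ‖x‖ ^ 2))‖ ≤ e * ε ^ 2 := by
          rw [hχε x hx, Real.norm_of_nonneg (by linarith)]
          have h3 := Real.add_one_le_exp (-(e * ‖x‖ ^ 2))
          have h4 : ‖x‖ ^ 2 ≤ ε ^ 2 := pow_le_pow_left₀ (norm_nonneg _) hx 2
          nlinarith
        have h5 : ‖χ x - Real.exp (-(e * ‖x‖ ^ 2))‖ * ‖J x‖ ≤ e * (ε ^ 2 * M) := by
          calc _ ≤ (e * ε ^ 2) * M :=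
                mul_le_mul h2 (hJbound x) (norm_nonneg _) (by positivity)
            _ = _ := by ring
        have h6 : 0 ≤ (|K'| / ‖σ‖ ^ 4) * (if ε ≤ ‖x‖ then (‖x‖ ^ 8)⁻¹ else 0) := by
          refine mul_nonneg (by positivity) ?_
          split_ifs <;> positivity
        simp only [hx, if_true, mul_one]
        linarith
      · have hx' : ε ≤ ‖x‖ := (not_le.mp hx).le
        have hx0 : 0 < ‖x‖ := hε.trans_le hx'
        simp only [hx, hx', if_true, if_false, mul_zero, add_zero]
        calc _ ≤ 1 * (|K'| / (‖σ‖ ^ 4 * ‖x‖ ^ 8)) :=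
              mul_le_mul hle1 (hJtail x hx') (norm_nonneg _) zero_le_one
          _ = _ := by
              rw [one_mul, div_mul_eq_div_div, div_eq_mul_inv (_ / _)]
    · rw [integral_add ((int_tail ε hε).const_mul _) (hvolint.const_mul _), integral_const_mul,
        integral_const_mul]
      ring
  -- step 2
  have step2 : ∀ e : ℝ, 0 < e → Ae e = ∫ z : Z, (φ z : ℂ) *
      (cexp (I * ((σ * C z).re : ℂ)) * gs (σ * z 0) (σ * B z) e) := by
    intro e he
    have h1 : Ae e = ∫ x : ℂ, ∫ z : Z, (Real.exp (-(e * ‖x‖ ^ 2)) : ℂ) * (osc x z * φ z) := by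
      simp only [hAe, hJ]
      refine integral_congr_ae (ae_of_all _ fun x => ?_)
      simp only
      rw [← integral_const_mul]
    rw [h1, integral_integral_swap]
    · refine integral_congr_ae (ae_of_all _ fun z => ?_)
      simp only
      rw [gs, ← (hG (σ * z 0) (σ * B z) e he).2, ← integral_const_mul, ← integral_const_mul]
      refine integral_congr_ae (ae_of_all _ fun x => ?_)
      simp only [hosc]
      rw [Complex.ofReal_exp, mul_comm (cexp _) (cexp _ * _), mul_assoc, mul_comm (_ : ℂ) (cexp _),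
        ← mul_assoc, ← Complex.exp_add, mul_comm, ← Complex.exp_add]
      congr 2
      have : (σ * (z 0 * x ^ 2 + 2 * B z * x + C z)).re
          = (σ * C z).re + (σ * z 0 * x ^ 2 + 2 * (σ * B z) * x).re := by
        rw [← Complex.add_re]
        congr 1
        ring
      rw [this]
      push_cast
      ring
    · have h2 : Integrable (fun p : ℂ × Z => Real.exp (-(e * ‖p.1‖ ^ 2)) * φ p.2)
          (volume.prod volume) := (hgint e he).mul_prod hφint
      refine h2.norm.mono' ?_ (ae_of_all _ fun p => ?_)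
      · refine Continuous.aestronglyMeasurable ?_
        have := hosccont
        unfold Function.uncurry at this ⊢
        fun_prop
      · simp only [Function.uncurry, norm_mul, hoscn, one_mul, Complex.norm_real]
        exact le_refl _
  -- step 3
  set e : ℕ → ℝ := fun n => 1 / ((n : ℝ) + 1) with he
  have he0 : ∀ n, 0 < e n := fun n => by positivity
  have helim : Tendsto e atTop (𝓝 0) := tendsto_one_div_add_atTop_nhds_zero_nat
  have step3 : Tendsto (fun n => Ae (e n)) atTop (𝓝 ((Real.pi / ‖σ‖ : ℝ) *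
      ∫ z, cexp (I * ((σ * (C z - B z ^ 2 / z 0)).re : ℂ)) * (φ z / ‖z 0‖ : ℝ))) := by
    have h1 : (fun n => Ae (e n)) = fun n => ∫ z : Z, (φ z : ℂ) *
      (cexp (I * ((σ * C z).re : ℂ)) * gs (σ * z 0) (σ * B z) (e n)) :=
      funext fun n => step2 (e n) (he0 n)
    rw [h1, ← integral_const_mul]
    refine tendsto_integral_of_dominated_convergence
      (fun z => (Real.pi / ‖σ‖) * ‖φ z / ‖z 0‖‖) ?_ (hiphi.norm.const_mul _) ?_ ?_
    · intro n
      have hgc : Continuous (fun z : Z => gs (σ * z 0) (σ * B z) (e n)) := by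
        unfold gs
        have hp : ∀ z : Z, 0 < (e n) ^ 2 + ‖σ * z 0‖ ^ 2 := fun z => by
          have := he0 n
          positivity
        refine Continuous.mul ?_ ?_
        · refine Complex.continuous_ofReal.comp ?_
          refine Continuous.div continuous_const (by fun_prop) fun z => ?_
          exact (Real.sqrt_pos.mpr (hp z)).ne'
        · refine Complex.continuous_exp.comp ?_
          refine Continuous.div (by fun_prop) (by fun_prop) fun z => ?_
          exact_mod_cast (hp z).ne'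
      refine Continuous.aestronglyMeasurable ?_
      fun_prop
    · intro n
      filter_upwards [ae_ne 0] with z hz
      have hz0 : 0 < ‖z 0‖ := norm_pos_iff.mpr hz
      rw [norm_mul, norm_mul, norm_osc, one_mul, Complex.norm_real]
      have h2 := gs_norm (σ * z 0) (σ * B z) (e n) (he0 n) (mul_ne_zero hσne hz)
      rw [norm_mul] at h2
      calc ‖φ z‖ * ‖gs (σ * z 0) (σ * B z) (e n)‖ ≤ ‖φ z‖ * (Real.pi / (‖σ‖ * ‖z 0‖)) :=
            mul_le_mul_of_nonneg_left h2 (norm_nonneg _)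
        _ = _ := by
            rw [norm_div, norm_norm]
            field_simp
    · filter_upwards [ae_ne 0] with z hz
      have hz0 : 0 < ‖z 0‖ := norm_pos_iff.mpr hz
      have h2 := gs_lim (σ * z 0) (σ * B z) (mul_ne_zero hσne hz) helim
      have h3 := (h2.const_mul (cexp (I * ((σ * C z).re : ℂ)))).const_mul (φ z : ℂ)
      have h6 : (Real.pi / ‖σ‖ : ℝ) * (cexp (I * ((σ * (C z - B z ^ 2 / z 0)).re : ℂ)) *
          (φ z / ‖z 0‖ : ℝ)) = (φ z : ℂ) * (cexp (I * ((σ * C z).re : ℂ)) *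
          ((Real.pi / ‖σ * z 0‖ : ℝ) * cexp (-(I * (((σ * B z) ^ 2 / (σ * z 0)).re : ℂ))))) := by
        have e1 : (σ * (C z - B z ^ 2 / z 0)).re
            = (σ * C z).re - ((σ * B z) ^ 2 / (σ * z 0)).re := by
          rw [← Complex.sub_re]
          congr 1
          field_simp
        rw [e1]
        have e2 : cexp (I * (((σ * C z).re - ((σ * B z) ^ 2 / (σ * z 0)).re : ℝ) : ℂ)) =
            cexp (I * ((σ * C z).re : ℂ)) * cexp (-(I * (((σ * B z) ^ 2 / (σ * z 0)).re : ℂ))) := by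
          rw [← Complex.exp_add]
          congr 1
          push_cast
          ring
        rw [e2, norm_mul]
        have hσc : (‖σ‖ : ℂ) ≠ 0 := by exact_mod_cast hσ0.ne'
        have hzc : (‖z 0‖ : ℂ) ≠ 0 := by exact_mod_cast hz0.ne'
        push_cast
        field_simp
      rw [h6]
      exact h3
  have step4 : ∀ n, ‖A - Ae (e n)‖ ≤ |K'| * I8 / ‖σ‖ ^ 4 + e n * (ε ^ 2 * M * vol) :=
    fun n => step1 (e n) (he0 n)
  have h5 : Tendsto (fun n => |K'| * I8 / ‖σ‖ ^ 4 + e n * (ε ^ 2 * M * vol)) atTop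
      (𝓝 (|K'| * I8 / ‖σ‖ ^ 4 + 0 * (ε ^ 2 * M * vol))) :=
    (helim.mul_const _).const_add _
  rw [zero_mul, add_zero] at h5
  exact le_of_tendsto_of_tendsto' ((tendsto_const_nhds.sub step3).norm) h5 step4

end CF55.H37
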