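import Pool.Agent.Helper55.CF.Goals

set_option autoImplicit false
set_option linter.unusedSectionVars false

open MeasureTheory Complex Filter Topology
open scoped ContDiff ComplexConjugate

noncomputable section
namespace CF55.H37

open CF55

variable {Q : Type} [NormedAddCommGroup Q] [NormedSpace ℝ Q]

/-- Wirtinger derivative in the first variable -/
def dw (a : ℂ × Q → ℂ) (x : ℂ × Q) : ℂ :=
  (1 / 2) * (fderiv ℝ a x (1, 0) - I * fderiv ℝ a x (I, 0))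

/-- the iterated amplitudes -/
def aseq (φ H : ℂ × Q → ℂ) : ℕ → ℂ × Q → ℂ
  | 0 => φ
  | k + 1 => dw fun x => aseq φ H k x / H x

theorem eventually_zero {K : Set ℂ} (hK : IsClosed K) {a : ℂ × Q → ℂ}
    (ha : ∀ ζ p, ζ ∉ K → a (ζ, p) = 0) {ζ : ℂ} (hζ : ζ ∉ K) (p : Q) :
    a =ᶠ[𝓝 (ζ, p)] fun _ => 0 := by
  have h1 : ∀ᶠ x : ℂ × Q in 𝓝 (ζ, p), x.1 ∉ K :=
    continuous_fst.continuousAt.eventually
      (hK.isOpen_compl.mem_nhds (show ((ζ, p) : ℂ × Q).1 ∈ Kᶜ from hζ))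
  filter_upwards [h1] with x hx
  exact ha x.1 x.2 hx

theorem fderiv_zero {K : Set ℂ} (hK : IsClosed K) {a : ℂ × Q → ℂ}
    (ha : ∀ ζ p, ζ ∉ K → a (ζ, p) = 0) {ζ : ℂ} (hζ : ζ ∉ K) (p : Q) :
    fderiv ℝ a (ζ, p) = 0 := by
  rw [(eventually_zero hK ha hζ p).fderiv_eq]
  simp

theorem aseq_zero {K : Set ℂ} (hK : IsClosed K) {φ H : ℂ × Q → ℂ}
    (hφ : ∀ ζ p, ζ ∉ K → φ (ζ, p) = 0) (k : ℕ) :
    ∀ ζ p, ζ ∉ K → aseq φ H k (ζ, p) = 0 := by
  induction k with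
  | zero => exact hφ
  | succ k ih =>
    intro ζ p hζ
    show dw _ _ = 0
    unfold dw
    rw [fderiv_zero hK (a := fun x => aseq φ H k x / H x) (fun ζ p h => by
      show aseq φ H k (ζ, p) / H (ζ, p) = 0
      rw [ih ζ p h, zero_div]) hζ p]
    simp

theorem aseq_smooth {φ H : ℂ × Q → ℂ} (hφ : ContDiff ℝ ∞ φ) (hH : ContDiff ℝ ∞ H) (k : ℕ) :
    ContDiffOn ℝ ∞ (aseq φ H k) {x | H x ≠ 0} := by
  have hopen : IsOpen {x : ℂ × Q | H x ≠ 0} := hH.continuous.isOpen_preimage _ isOpen_compl_singleton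
  induction k with
  | zero => exact hφ.contDiffOn
  | succ k ih =>
    have h1 : ContDiffOn ℝ ∞ (fun x => aseq φ H k x / H x) {x | H x ≠ 0} :=
      (ih.mul (hH.contDiffOn.inv (fun x hx => hx))).congr fun x _ => div_eq_mul_inv _ _
    have h2 : ContDiffOn ℝ ∞ (fderiv ℝ fun x => aseq φ H k x / H x) {x | H x ≠ 0} :=
      h1.fderiv_of_isOpen hopen (by simp)
    show ContDiffOn ℝ ∞ (dw _) _
    unfold dw
    exact contDiffOn_const.mul ((h2.clm_apply contDiffOn_const).sub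
      (contDiffOn_const.mul (h2.clm_apply contDiffOn_const)))

theorem nsp_step {K : Set ℂ} (hK : IsCompact K) {G A H : ℂ × Q → ℂ} (hG : ContDiff ℝ ∞ G)
    (hGh : ∀ p, Differentiable ℂ fun ζ => G (ζ, p))
    (hH : ∀ x, H x = fderiv ℝ G x (1, 0)) (hHs : ContDiff ℝ ∞ H)
    (hA : ContDiffOn ℝ ∞ A {x | H x ≠ 0}) (hA0 : ∀ ζ p, ζ ∉ K → A (ζ, p) = 0)
    {p : Q} (hp : ∀ ζ ∈ K, H (ζ, p) ≠ 0) (s : ℂ) :
    ∫ ζ, cexp (I * ((s * G (ζ, p)).re : ℂ)) * dw (fun x => A x / H x) (ζ, p) =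
      -(I * s / 2) * ∫ ζ, cexp (I * ((s * G (ζ, p)).re : ℂ)) * A (ζ, p) := by
  have hopen : IsOpen {x : ℂ × Q | H x ≠ 0} :=
    hHs.continuous.isOpen_preimage _ isOpen_compl_singleton
  set F : ℂ × Q → ℂ := fun x => A x / H x with hF
  have hF0 : ∀ ζ p, ζ ∉ K → F (ζ, p) = 0 := by
    intro ζ p h
    simp only [hF]
    rw [hA0 ζ p h, zero_div]
  have hFs : ContDiffOn ℝ ∞ F {x | H x ≠ 0} :=
    (hA.mul (hHs.contDiffOn.inv (fun x hx => hx))).congr fun x _ => div_eq_mul_inv _ _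
  have hFd : ∀ ζ, DifferentiableAt ℝ F (ζ, p) := by
    intro ζ
    by_cases hζ : ζ ∈ K
    · exact (hFs.contDiffAt (hopen.mem_nhds (hp ζ hζ))).differentiableAt (by simp)
    · exact (eventually_zero hK.isClosed hF0 hζ p).differentiableAt_iff.mpr
        (differentiableAt_const _)
  have hinl : ∀ ζ : ℂ, HasFDerivAt (fun ζ : ℂ => (ζ, p)) (ContinuousLinearMap.inl ℝ ℂ Q) ζ := by
    intro ζ
    exact hasFDerivAt_prodMk_left ζ p
  set b : ℂ → ℂ := fun ζ => F (ζ, p) with hb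
  have hbd : ∀ ζ, HasFDerivAt b ((fderiv ℝ F (ζ, p)).comp (ContinuousLinearMap.inl ℝ ℂ Q)) ζ := by
    intro ζ
    exact (hFd ζ).hasFDerivAt.comp ζ (hinl ζ)
  have hbv : ∀ ζ v, fderiv ℝ b ζ v = fderiv ℝ F (ζ, p) (v, 0) := by
    intro ζ v
    rw [(hbd ζ).fderiv]
    simp
  have hbcont : Continuous b := continuous_iff_continuousAt.mpr fun ζ => (hbd ζ).continuousAt
  have hbsupp : HasCompactSupport b := HasCompactSupport.intro hK fun ζ hζ => hF0 ζ p hζ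
  have hb'cont : ∀ v : ℂ, Continuous fun ζ => fderiv ℝ b ζ v := by
    intro v
    rw [continuous_iff_continuousAt]
    intro ζ
    simp only [hbv]
    by_cases hζ : ζ ∈ K
    · have h1 : ContinuousAt (fderiv ℝ F) (ζ, p) :=
        ((hFs.fderiv_of_isOpen hopen (m := ∞) (by simp)).continuousOn).continuousAt
          (hopen.mem_nhds (hp ζ hζ))
      have h2 : ContinuousAt (fun ζ : ℂ => fderiv ℝ F (ζ, p)) ζ :=
        ContinuousAt.comp (f := fun ζ : ℂ => (ζ, p)) (g := fderiv ℝ F) h1 (by fun_prop)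
      exact h2.clm_apply continuousAt_const
    · have h3 : (fun ζ : ℂ => fderiv ℝ F (ζ, p) (v, 0)) =ᶠ[𝓝 ζ] fun _ => 0 := by
        filter_upwards [hK.isClosed.isOpen_compl.mem_nhds hζ] with ζ' hζ'
        rw [fderiv_zero hK.isClosed hF0 hζ' p]
        simp
      exact (continuousAt_congr h3).mpr continuousAt_const
  have hb'supp : ∀ v : ℂ, HasCompactSupport fun ζ => fderiv ℝ b ζ v := by
    intro v
    refine HasCompactSupport.intro hK fun ζ hζ => ?_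
    rw [hbv, fderiv_zero hK.isClosed hF0 hζ p]
    simp
  -- the exponential
  set e : ℂ → ℂ := fun ζ => cexp (I * ((s * G (ζ, p)).re : ℂ)) with he
  have hGd : ∀ ζ, HasDerivAt (fun ζ => G (ζ, p)) (H (ζ, p)) ζ := by
    intro ζ
    have h1 := ((hGh p) ζ).hasDerivAt
    have h2 := h1.hasFDerivAt.restrictScalars ℝ
    have h3 : HasFDerivAt (fun ζ => G (ζ, p))
        ((fderiv ℝ G (ζ, p)).comp (ContinuousLinearMap.inl ℝ ℂ Q)) ζ :=
      ((hG.differentiable (by simp)) (ζ, p)).hasFDerivAt.comp ζ (hinl ζ)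
    have h4 := h2.unique h3
    have h5 : deriv (fun ζ => G (ζ, p)) ζ = H (ζ, p) := by
      rw [hH]
      have h6 := congrArg (fun L : ℂ →L[ℝ] ℂ => L 1) h4
      simpa using h6
    rw [← h5]
    exact h1
  have hed : ∀ ζ, HasFDerivAt e (e ζ • (I • (Complex.ofRealCLM.comp (Complex.reCLM.comp
      ((ContinuousLinearMap.restrictScalars ℝ
        (ContinuousLinearMap.toSpanSingleton ℂ (s * H (ζ, p))))))))) ζ := by
    intro ζ
    have h1 := ((hGd ζ).const_mul s).hasFDerivAt.restrictScalars ℝ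
    have h2 := Complex.reCLM.hasFDerivAt.comp ζ h1
    have h3 := Complex.ofRealCLM.hasFDerivAt.comp ζ h2
    have h4 := (h3.const_mul I).cexp
    exact h4
  have hev : ∀ ζ v, fderiv ℝ e ζ v = e ζ * (I * ((v * (s * H (ζ, p))).re : ℂ)) := by
    intro ζ v
    rw [(hed ζ).fderiv]
    simp
  have hecont : Continuous e := continuous_iff_continuousAt.mpr fun ζ => (hed ζ).continuousAt
  have hHc : Continuous fun ζ => H (ζ, p) := hHs.continuous.comp (by fun_prop)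
  have he'cont : ∀ v : ℂ, Continuous fun ζ => fderiv ℝ e ζ v := by
    intro v
    simp only [hev]
    fun_prop
  have hparts : ∀ v : ℂ, ∫ ζ, e ζ * fderiv ℝ b ζ v = - ∫ ζ, fderiv ℝ e ζ v * b ζ := by
    intro v
    refine integral_mul_fderiv_eq_neg_fderiv_mul_of_integrable ?_ ?_ ?_ ?_ ?_
    · exact ((he'cont v).mul hbcont).integrable_of_hasCompactSupport hbsupp.mul_left
    · exact (hecont.mul (hb'cont v)).integrable_of_hasCompactSupport (hb'supp v).mul_left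
    · exact (hecont.mul hbcont).integrable_of_hasCompactSupport hbsupp.mul_left
    · exact fun ζ _ => (hed ζ).differentiableAt
    · exact fun ζ _ => (hbd ζ).differentiableAt
  have hi : ∀ v : ℂ, Integrable fun ζ => e ζ * fderiv ℝ b ζ v := fun v =>
    (hecont.mul (hb'cont v)).integrable_of_hasCompactSupport (hb'supp v).mul_left
  have hi' : ∀ v : ℂ, Integrable fun ζ => fderiv ℝ e ζ v * b ζ := fun v =>
    ((he'cont v).mul hbcont).integrable_of_hasCompactSupport hbsupp.mul_left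
  have hL : ∫ ζ, e ζ * dw F (ζ, p) =
      (1 / 2) * (∫ ζ, e ζ * fderiv ℝ b ζ 1) - (I / 2) * ∫ ζ, e ζ * fderiv ℝ b ζ I := by
    rw [← integral_const_mul, ← integral_const_mul, ← integral_sub ((hi 1).const_mul _)
      ((hi I).const_mul _)]
    refine integral_congr_ae (ae_of_all _ fun ζ => ?_)
    simp only [dw, hbv]
    ring
  rw [hL, hparts, hparts]
  have hR : ∀ ζ, (1 / 2) * (fderiv ℝ e ζ 1 * b ζ) - (I / 2) * (fderiv ℝ e ζ I * b ζ)
      = (I * s / 2) * (e ζ * A (ζ, p)) := by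
    intro ζ
    have hbA : b ζ * H (ζ, p) = A (ζ, p) := by
      simp only [hb, hF]
      by_cases h : H (ζ, p) = 0
      · have : ζ ∉ K := fun hk => hp ζ hk h
        rw [hA0 ζ p this]
        simp
      · field_simp
    have hw : (((1 * (s * H (ζ, p))).re : ℝ) : ℂ) - I * (((I * (s * H (ζ, p))).re : ℝ) : ℂ)
        = s * H (ζ, p) := by
      rw [one_mul]
      apply Complex.ext <;> simp
    rw [hev, hev, ← hbA]
    calc _ = (1 / 2) * e ζ * I * b ζ * ((((1 * (s * H (ζ, p))).re : ℝ) : ℂ)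
          - I * (((I * (s * H (ζ, p))).re : ℝ) : ℂ)) := by ring
      _ = _ := by rw [hw]; ring
  have hR2 : (1 / 2) * (∫ ζ, fderiv ℝ e ζ 1 * b ζ) - (I / 2) * (∫ ζ, fderiv ℝ e ζ I * b ζ)
      = (I * s / 2) * ∫ ζ, e ζ * A (ζ, p) := by
    rw [← integral_const_mul, ← integral_const_mul, ← integral_sub ((hi' 1).const_mul _)
      ((hi' I).const_mul _), ← integral_const_mul]
    exact integral_congr_ae (ae_of_all _ fun ζ => hR ζ)
  linear_combination -hR2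

theorem stmtNSP : G_NSP := by
  intro Q _ _ G φ hG hφ hGh K Kq hK hKq hφ0 hder
  set H : ℂ × Q → ℂ := fun x => fderiv ℝ G x (1, 0) with hH
  have hHs : ContDiff ℝ ∞ H := (hG.fderiv_right (m := ∞) (by simp)).clm_apply contDiff_const
  have hHne : ∀ ζ ∈ K, ∀ p ∈ Kq, H (ζ, p) ≠ 0 := by
    intro ζ hζ p hp h
    apply hder ζ hζ p hp
    have h1 := (hGh p ζ).hasDerivAt.hasFDerivAt.restrictScalars ℝ
    have h3 : HasFDerivAt (fun ζ => G (ζ, p))
        ((fderiv ℝ G (ζ, p)).comp (ContinuousLinearMap.inl ℝ ℂ Q)) ζ :=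
      ((hG.differentiable (by simp)) (ζ, p)).hasFDerivAt.comp ζ (hasFDerivAt_prodMk_left ζ p)
    have h4 := h1.unique h3
    have h6 := congrArg (fun L : ℂ →L[ℝ] ℂ => L 1) h4
    simp only [hH] at h
    simpa [h] using h6
  have hcomp : IsCompact (K ×ˢ Kq) := hK.prod hKq
  obtain ⟨C0, hC0⟩ := hcomp.exists_bound_of_continuousOn hφ.continuous.continuousOn
  obtain ⟨C4, hC4⟩ := hcomp.exists_bound_of_continuousOn
    (((aseq_smooth hφ hHs 4).continuousOn).mono (by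
      rintro ⟨ζ, p⟩ ⟨h1, h2⟩
      exact hHne ζ h1 p h2))
  set vol : ℝ := volume.real K with hvol
  have hvol0 : 0 ≤ vol := measureReal_nonneg
  refine ⟨16 * (|C0| * vol) + 256 * (|C4| * vol), ?_⟩
  intro p hp s
  have hbound : ∀ (a : ℂ → ℂ) (c : ℝ), (∀ ζ, ζ ∉ K → a ζ = 0) → (∀ ζ ∈ K, ‖a ζ‖ ≤ c) →
      ‖∫ ζ, cexp (I * ((s * G (ζ, p)).re : ℂ)) * a ζ‖ ≤ |c| * vol := by
    intro a c ha0 hac
    rw [← setIntegral_eq_integral_of_forall_compl_eq_zero (s := K) (fun ζ hζ => by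
      rw [ha0 ζ hζ, mul_zero])]
    refine norm_setIntegral_le_of_norm_le_const hK.measure_lt_top fun ζ hζ => ?_
    rw [norm_mul, mul_comm I, Complex.norm_exp_ofReal_mul_I, one_mul]
    exact (hac ζ hζ).trans (le_abs_self c)
  have hE0 := hbound (fun ζ => φ (ζ, p)) C0 (fun ζ hζ => hφ0 ζ p hζ) (fun ζ hζ => hC0 _ ⟨hζ, hp⟩)
  have hE4 := hbound (fun ζ => aseq φ H 4 (ζ, p)) C4 (fun ζ hζ => aseq_zero hK.isClosed hφ0 4 ζ p hζ)
    (fun ζ hζ => hC4 _ ⟨hζ, hp⟩)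
  have hstep : ∀ k, ∫ ζ, cexp (I * ((s * G (ζ, p)).re : ℂ)) * aseq φ H k (ζ, p) =
      (-(I * s / 2)) ^ k * ∫ ζ, cexp (I * ((s * G (ζ, p)).re : ℂ)) * φ (ζ, p) := by
    intro k
    induction k with
    | zero => simp [aseq]
    | succ k ih =>
      rw [pow_succ', mul_assoc, ← ih]
      exact nsp_step hK hG hGh (fun x => rfl) hHs (aseq_smooth hφ hHs k)
        (aseq_zero hK.isClosed hφ0 k) (fun ζ hζ => hHne ζ hζ p hp) s
  have h4 := hstep 4
  set E0 : ℂ := ∫ ζ, cexp (I * ((s * G (ζ, p)).re : ℂ)) * φ (ζ, p) with hE0def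
  rw [le_div_iff₀ (by positivity)]
  have hnorm4 : (‖s‖ / 2) ^ 4 * ‖E0‖ ≤ |C4| * vol := by
    have h5 : ‖(-(I * s / 2)) ^ 4 * E0‖ = (‖s‖ / 2) ^ 4 * ‖E0‖ := by
      rw [norm_mul, norm_pow, norm_neg, norm_div, norm_mul, Complex.norm_I, one_mul]
      norm_num
    rw [← h5, ← h4]
    exact hE4
  have hc0 : 0 ≤ |C0| * vol := by positivity
  have hc4 : 0 ≤ |C4| * vol := by positivity
  rcases le_total ‖s‖ 1 with hs | hs
  · have h6 : (1 + ‖s‖) ^ 4 ≤ 2 ^ 4 := pow_le_pow_left₀ (by positivity) (by linarith) 4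
    calc ‖E0‖ * (1 + ‖s‖) ^ 4 ≤ (|C0| * vol) * 2 ^ 4 :=
          mul_le_mul hE0 h6 (by positivity) hc0
      _ ≤ _ := by nlinarith
  · have h6 : (1 + ‖s‖) ^ 4 ≤ (2 * ‖s‖) ^ 4 := pow_le_pow_left₀ (by positivity) (by linarith) 4
    calc ‖E0‖ * (1 + ‖s‖) ^ 4 ≤ ‖E0‖ * (2 * ‖s‖) ^ 4 :=
          mul_le_mul_of_nonneg_left h6 (norm_nonneg _)
      _ = 256 * ((‖s‖ / 2) ^ 4 * ‖E0‖) := by ring
      _ ≤ 256 * (|C4| * vol) := by linarith
      _ ≤ _ := by linarith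

end CF55.H37
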