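import Pool.Agent.Helper45.CF.GoalsB
import Pool.Agent.Helper19.CAR.SYS1
import Pool.Agent.Helper32.CAR.SYS

/-!
# Project CF, packet SYSO: the recursion with steps that have the extra character

Adapted from helper32's CAR/SYS.lean and helper19's CAR/SYS1.lean.
-/

set_option autoImplicit false

open Filter Topology
open scoped ComplexOrder

namespace Pool.Agent.Helper37.CF

open Pool.Agent.Helper34.CAR Pool.Agent.Helper45.CF Pool.Agent.Helper19.CAR

/-- one step with the extra character. -/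
theorem sys1o (hP : S_PADO) : ∀ (B : Type) [CStarAlgebra B] (θ : B →⋆ₐ[ℂ] B) (ω : B →⋆ₐ[ℂ] ℂ),
  StepProp B θ →
  ∀ (S : Type) [Fintype S] [DecidableEq S] (v : Mt S B), star v * v = 1 → v * star v = 1 →
  ∀ (G : Finset (Mt S B)) (ε : ℝ), 0 < ε → ∃ (a : ℕ) (C : Type) (_ : Fintype C)
    (_ : DecidableEq C) (c0 c1 c2 : C) (K : B →⋆ₐ[ℂ] Mt C B) (w : Mt C B) (v' : Mt (S × C) B),
    Fintype.card C = 2 ^ a ∧ StepAt θ ∅ 1 C c0 c1 K w ∧ HasOm ω c0 c1 c2 K ∧
    star v' * v' = 1 ∧ v' * star v' = 1 ∧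
    (∀ x : S → S → ℂ, ∃ x' : S × C → S × C → ℂ,
      kapF K (star v * Mt.scal x * v) = star v' * Mt.scal x' * v') ∧
    ∀ g ∈ G, ∃ x' : S × C → S × C → ℂ, ‖kapF K g - star v' * Mt.scal x' * v'‖ < ε := by
  classical
  intro B _ θ ω hst S _ _ v hv1 hv2 G ε hε
  set n : ℝ := (Fintype.card S : ℝ) with hn
  have hn0 : 0 ≤ n := Nat.cast_nonneg _
  obtain ⟨a0, C0, fC0, dC0, c00, c10, K0, w0, hcard0, hstep0⟩ := hst
    (G.biUnion fun g => Finset.univ.image fun p : S × S => (v * g * star v) p.1 p.2)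
    (ε / (n ^ 2 + 1)) (by positivity)
  obtain ⟨K, w, hstep, hom⟩ := hP B θ ω _ _ C0 c00 c10 K0 w0 (by positivity) hstep0
  have hcard : Fintype.card (C0 ⊕ C0) = 2 ^ (a0 + 1) := by
    rw [Fintype.card_sum, hcard0, pow_succ]
    ring
  obtain ⟨h1, h2, h3, h4, h5, h6, h7, h8⟩ := hstep
  refine ⟨a0 + 1, C0 ⊕ C0, inferInstance, inferInstance, .inl c00, .inl c10, .inr c00, K, w,
    oW w * kapH K v, hcard,
    ⟨h1, h2, h3, h4, h5, h6, h7, fun b hb => absurd hb (Finset.notMem_empty b)⟩, hom,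
    ?_, ?_, ?_, ?_⟩
  · rw [star_mul, mul_assoc, ← mul_assoc (star (oW w)), oW_star, oW_mul, h2, oW_one, one_mul,
      ← map_star, ← map_mul, hv1, map_one]
  · rw [star_mul, mul_assoc, ← mul_assoc (kapH K v), ← map_star, ← map_mul, hv2, map_one, one_mul,
      oW_star, oW_mul, h3, oW_one]
  · intro x
    refine ⟨xo x, ?_⟩
    have e1 : kapF K (star v * Mt.scal x * v) =
        star (kapH K v) * Mt.scal (xo x) * kapH K v := by
      rw [← kapH_apply, map_mul, map_mul, map_star, kapH_apply K (Mt.scal x), kapF_scal]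
    rw [e1, star_mul]
    have e2 : star (kapH K v) * star (oW w) * Mt.scal (xo x) * (oW w * kapH K v) =
        star (kapH K v) * (star (oW w) * (Mt.scal (xo x) * oW w)) * kapH K v := by
      simp only [mul_assoc]
    rw [e2, scal_xo_comm, ← mul_assoc (star (oW w)), oW_star, oW_mul, h2, oW_one, one_mul]
  · intro g hg
    have hX : ∀ s t : S, ∃ x : C0 ⊕ C0 → C0 ⊕ C0 → ℂ,
        ‖K ((v * g * star v) s t) - star w * Mt.scal x * w‖ < ε / (n ^ 2 + 1) := by
      intro s t
      refine h8 _ ?_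
      rw [Finset.mem_biUnion]
      exact ⟨g, hg, Finset.mem_image.2 ⟨(s, t), Finset.mem_univ _, rfl⟩⟩
    choose X hX using hX
    refine ⟨fun x y => X x.1 y.1 x.2 y.2, ?_⟩
    have hU : kapH K v ∈ unitary (Mt (S × (C0 ⊕ C0)) B) := by
      rw [Unitary.mem_iff, ← map_star, ← map_mul, ← map_mul, hv1, hv2, map_one]
      exact ⟨rfl, rfl⟩
    have e1 : kapF K g = star (kapH K v) * kapH K (v * g * star v) * kapH K v := by
      rw [← kapH_apply, ← map_star, ← map_mul, ← map_mul]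
      congr 1
      have : star v * (v * g * star v) * v = (star v * v) * g * (star v * v) := by
        simp only [mul_assoc]
      rw [this, hv1, one_mul, mul_one]
    have e2 : star (oW w * kapH K v) * Mt.scal (fun x y => X x.1 y.1 x.2 y.2) *
        (oW w * kapH K v) = star (kapH K v) *
          (star (oW w) * Mt.scal (fun x y => X x.1 y.1 x.2 y.2) * oW w) * kapH K v := by
      rw [star_mul]
      simp only [mul_assoc]
    rw [e1, e2, ← sub_mul, ← mul_sub]
    have e3 : ‖star (kapH K v) * (kapH K (v * g * star v) -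
        star (oW w) * Mt.scal (fun x y => X x.1 y.1 x.2 y.2) * oW w) * kapH K v‖ =
        ‖kapH K (v * g * star v) -
          star (oW w) * Mt.scal (fun x y => X x.1 y.1 x.2 y.2) * oW w‖ := by
      rw [CStarRing.norm_mul_coe_unitary _ (⟨kapH K v, hU⟩ : unitary (Mt (S × (C0 ⊕ C0)) B))]
      exact CStarRing.norm_coe_unitary_mul
        (⟨star (kapH K v), Unitary.star_mem hU⟩ : unitary (Mt (S × (C0 ⊕ C0)) B)) _
    rw [e3]
    have e4 := norm_blocks (kapH K (v * g * star v) -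
        star (oW w) * Mt.scal (fun x y => X x.1 y.1 x.2 y.2) * oW w)
        (fun s t => K ((v * g * star v) s t) - star w * Mt.scal (X s t) * w) (fun x y => by
          rw [Mt.sub_apply, Mt.sub_apply, blocks_scal]
          rfl)
    refine e4.trans_lt ?_
    have e5 : ∑ s : S, ∑ t : S, ‖K ((v * g * star v) s t) - star w * Mt.scal (X s t) * w‖ ≤
        ∑ _s : S, ∑ _t : S, ε / (n ^ 2 + 1) :=
      Finset.sum_le_sum fun s _ => Finset.sum_le_sum fun t _ => (hX s t).le
    refine e5.trans_lt ?_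
    rw [Finset.sum_const, Finset.sum_const, Finset.card_univ, nsmul_eq_mul, nsmul_eq_mul, ← hn]
    have e6 : n * (n * (ε / (n ^ 2 + 1))) = ε * (n ^ 2 / (n ^ 2 + 1)) := by ring
    rw [e6]
    have e7 : n ^ 2 / (n ^ 2 + 1) < 1 := by
      rw [div_lt_one (by positivity)]
      linarith
    calc ε * (n ^ 2 / (n ^ 2 + 1)) < ε * 1 := mul_lt_mul_of_pos_left e7 hε
      _ = ε := mul_one ε


section recursion

variable {B : Type} [CStarAlgebra B]

/-- The state of the recursion. -/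
structure St (B : Type) [CStarAlgebra B] where
  S : Type
  fS : Fintype S
  dS : DecidableEq S
  v : Mt S B
  hv1 : star v * v = 1
  hv2 : v * star v = 1
  G : ℕ → ℕ → Mt S B

instance (σ : St B) : Fintype σ.S := σ.fS
instance (σ : St B) : DecidableEq σ.S := σ.dS

/-- The finite set of elements at step `i`. -/
noncomputable def St.F (σ : St B) (i : ℕ) : Finset (Mt σ.S B) :=
  open Classical in
  (Finset.range (i + 1) ×ˢ Finset.range (i + 1)).image fun q => σ.G q.1 q.2

theorem St.mem_F (σ : St B) {i j m : ℕ} (hj : j ≤ i) (hm : m ≤ i) : σ.G j m ∈ σ.F i := by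
  classical
  unfold St.F
  refine Finset.mem_image.2 ⟨(j, m), ?_, rfl⟩
  rw [Finset.mem_product, Finset.mem_range, Finset.mem_range]
  exact ⟨Nat.lt_succ_of_le hj, Nat.lt_succ_of_le hm⟩

/-- The data of a step. -/
structure StepD (θ : B →⋆ₐ[ℂ] B) (ω : B →⋆ₐ[ℂ] ℂ) (σ : St B) (i : ℕ) where
  a : ℕ
  C : Type
  fC : Fintype C
  dC : DecidableEq C
  c0 : C
  c1 : C
  c2 : C
  K : B →⋆ₐ[ℂ] Mt C B
  w : Mt C B
  v' : Mt (σ.S × C) B
  card : Fintype.card C = 2 ^ a
  step : StepAt θ ∅ 1 C c0 c1 K w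
  om : HasOm ω c0 c1 c2 K
  hv1 : star v' * v' = 1
  hv2 : v' * star v' = 1
  comp : ∀ x : σ.S → σ.S → ℂ, ∃ x' : σ.S × C → σ.S × C → ℂ,
    kapF K (star σ.v * Mt.scal x * σ.v) = star v' * Mt.scal x' * v'
  approx : ∀ g ∈ σ.F i, ∃ x' : σ.S × C → σ.S × C → ℂ,
    ‖kapF K g - star v' * Mt.scal x' * v'‖ < 1 / ((i : ℝ) + 1)

theorem exists_stepD (hS : S_PADO) {θ : B →⋆ₐ[ℂ] B} (ω : B →⋆ₐ[ℂ] ℂ) (hθ : StepProp B θ)
    (σ : St B) (i : ℕ) : Nonempty (StepD θ ω σ i) := by
  obtain ⟨a, C, fC, dC, c0, c1, c2, K, w, v', h1, h2, ho, h3, h4, h5, h6⟩ :=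
    sys1o hS B θ ω hθ σ.S σ.v σ.hv1 σ.hv2 (σ.F i) (1 / ((i : ℝ) + 1)) (by positivity)
  exact ⟨⟨a, C, fC, dC, c0, c1, c2, K, w, v', h1, h2, ho, h3, h4, h5, h6⟩⟩

variable [TopologicalSpace.SeparableSpace B]

/-- A dense sequence of matrices. -/
noncomputable def dsq (S : Type) [Fintype S] [DecidableEq S] : ℕ → Mt S B :=
  haveI : TopologicalSpace.SeparableSpace (Mt S B) := Pool.Agent.Helper32.CAR.mt_separable
  TopologicalSpace.denseSeq (Mt S B)

theorem dsq_dense (S : Type) [Fintype S] [DecidableEq S] : DenseRange (dsq (B := B) S) :=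
  haveI : TopologicalSpace.SeparableSpace (Mt S B) := Pool.Agent.Helper32.CAR.mt_separable
  TopologicalSpace.denseRange_denseSeq (Mt S B)

/-- The first state. -/
noncomputable def st0 : St B where
  S := Unit
  fS := inferInstance
  dS := inferInstance
  v := 1
  hv1 := by rw [star_one, one_mul]
  hv2 := by rw [star_one, one_mul]
  G _ m := dsq Unit m

variable (hS : S_PADO) {θ : B →⋆ₐ[ℂ] B} (ω : B →⋆ₐ[ℂ] ℂ) (hθ : StepProp B θ)

/-- The chosen step. -/
noncomputable def stp (σ : St B) (i : ℕ) : StepD θ ω σ i :=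
  Classical.choice (exists_stepD hS ω hθ σ i)

instance (σ : St B) (i : ℕ) (D : StepD θ ω σ i) : Fintype D.C := D.fC
instance (σ : St B) (i : ℕ) (D : StepD θ ω σ i) : DecidableEq D.C := D.dC

/-- The next state. -/
noncomputable def nxt (σ : St B) (i : ℕ) (D : StepD θ ω σ i) : St B where
  S := σ.S × D.C
  fS := inferInstance
  dS := inferInstance
  v := D.v'
  hv1 := D.hv1
  hv2 := D.hv2
  G j m := if j ≤ i then kapF D.K (σ.G j m) else dsq (σ.S × D.C) m

/-- The states. -/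
noncomputable def st : ℕ → St B
  | 0 => st0
  | i + 1 => nxt ω (st i) i (stp hS ω hθ (st i) i)

/-- The steps. -/
noncomputable def sd (i : ℕ) : StepD θ ω (st hS ω hθ i) i := stp hS ω hθ (st hS ω hθ i) i

/-- The system. -/
noncomputable def sys : Sys B θ where
  S i := (st hS ω hθ i).S
  fS i := (st hS ω hθ i).fS
  dS i := (st hS ω hθ i).dS
  C i := (sd hS ω hθ i).C
  fC i := (sd hS ω hθ i).fC
  dC i := (sd hS ω hθ i).dC
  s0 := ()
  uniq := fun _ => rfl
  e _ := Equiv.refl _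
  c0 i := (sd hS ω hθ i).c0
  c1 i := (sd hS ω hθ i).c1
  card i := ⟨(sd hS ω hθ i).a, (sd hS ω hθ i).card⟩
  K i := (sd hS ω hθ i).K
  w i := (sd hS ω hθ i).w
  step i := (sd hS ω hθ i).step

theorem sys_κ (i : ℕ) (a : (sys hS ω hθ).A i) :
    (sys hS ω hθ).κ i a = kapF (sd hS ω hθ i).K (show Mt (st hS ω hθ i).S B from a) := rfl

theorem G_dense (j : ℕ) : DenseRange ((st hS ω hθ j).G j) := by
  cases j with
  | zero => exact dsq_dense Unit
  | succ j =>
    have h1 : (st hS ω hθ (j + 1)).G (j + 1) = dsq ((st hS ω hθ j).S × (sd hS ω hθ j).C) := by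
      funext m
      exact if_neg (by omega : ¬ j + 1 ≤ j)
    rw [h1]
    exact dsq_dense _

theorem G_succ (i j m : ℕ) (h : j ≤ i) :
    (st hS ω hθ (i + 1)).G j m = kapF (sd hS ω hθ i).K ((st hS ω hθ i).G j m) := by
  exact if_pos h

theorem push_G (j m : ℕ) (d : ℕ) :
    (sys hS ω hθ).push j d (show (sys hS ω hθ).A j from (st hS ω hθ j).G j m) =
      (show (sys hS ω hθ).A (j + d) from (st hS ω hθ (j + d)).G j m) := by
  induction d with
  | zero => rfl
  | succ d ih =>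
    change (sys hS ω hθ).κ (j + d) ((sys hS ω hθ).push j d _) = (st hS ω hθ (j + d + 1)).G j m
    rw [ih, G_succ hS ω hθ (j + d) j m (by omega)]
    rfl

theorem sys_matricial : (sys hS ω hθ).Matricial := by
  refine ⟨fun i => (st hS ω hθ i).v, fun i => ⟨(st hS ω hθ i).hv1, (st hS ω hθ i).hv2⟩, ?_, ?_⟩
  · intro i x
    exact (sd hS ω hθ i).comp x
  · intro j a ε hε
    have hd : ∃ m : ℕ, ‖a - (show (sys hS ω hθ).A j from (st hS ω hθ j).G j m)‖ < ε / 2 := by
      have h1 := (G_dense hS ω hθ j).exists_dist_lt (show Mt (st hS ω hθ j).S B from a) (half_pos hε)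
      obtain ⟨m, hm⟩ := h1
      exact ⟨m, by rw [← dist_eq_norm]; exact hm⟩
    obtain ⟨m, hm⟩ := hd
    obtain ⟨n, hn⟩ := exists_nat_one_div_lt (half_pos hε)
    set d : ℕ := m + n with hdd
    have hF := (st hS ω hθ (j + d)).mem_F (i := j + d) (j := j) (m := m) (by omega) (by omega)
    obtain ⟨x, hx⟩ := (sd hS ω hθ (j + d)).approx _ hF
    refine ⟨d + 1, x, ?_⟩
    have h1 := Pool.Agent.Helper32.CAR.push_norm (sys hS ω hθ) j a (show (sys hS ω hθ).A j from (st hS ω hθ j).G j m) (d + 1)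
    rw [push_G] at h1
    have h2 : (st hS ω hθ (j + (d + 1))).G j m =
        kapF (sd hS ω hθ (j + d)).K ((st hS ω hθ (j + d)).G j m) :=
      G_succ hS ω hθ (j + d) j m (by omega)
    have h3 : (1 : ℝ) / (((j + d : ℕ) : ℝ) + 1) ≤ 1 / ((n : ℝ) + 1) := by
      refine one_div_le_one_div_of_le (by positivity) ?_
      have : (n : ℝ) ≤ ((j + d : ℕ) : ℝ) := by
        exact_mod_cast (by omega : n ≤ j + d)
      linarith
    have h4 : ‖(show (sys hS ω hθ).A (j + (d + 1)) from (st hS ω hθ (j + (d + 1))).G j m) -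
        star (show (sys hS ω hθ).A (j + (d + 1)) from (st hS ω hθ (j + (d + 1))).v) *
          (Mt.scal x : (sys hS ω hθ).A (j + (d + 1))) *
          (show (sys hS ω hθ).A (j + (d + 1)) from (st hS ω hθ (j + (d + 1))).v)‖ < ε / 2 := by
      have h5 : ‖kapF (sd hS ω hθ (j + d)).K ((st hS ω hθ (j + d)).G j m) -
        star (sd hS ω hθ (j + d)).v' * Mt.scal x * (sd hS ω hθ (j + d)).v'‖ < ε / 2 :=
        lt_of_lt_of_le hx (h3.trans hn.le)
      rw [← h2] at h5
      exact h5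
    have h6 := norm_sub_le_norm_sub_add_norm_sub ((sys hS ω hθ).push j (d + 1) a)
      (show (sys hS ω hθ).A (j + (d + 1)) from (st hS ω hθ (j + (d + 1))).G j m)
      (star (show (sys hS ω hθ).A (j + (d + 1)) from (st hS ω hθ (j + (d + 1))).v) *
          (Mt.scal x : (sys hS ω hθ).A (j + (d + 1))) *
          (show (sys hS ω hθ).A (j + (d + 1)) from (st hS ω hθ (j + (d + 1))).v))
    calc _ ≤ _ := h6
      _ < ε := by linarith [h1.trans_lt hm]

end recursion


/-- Packet SYSO. -/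
theorem t (hP : S_PADO) : Pool.Agent.Helper45.CF.S_SYSO := by
  intro B _ _ θ ω hθ
  exact ⟨sys hP ω hθ, fun i => (sd hP ω hθ i).c2, sys_matricial hP ω hθ,
    fun i => (sd hP ω hθ i).om⟩

end Pool.Agent.Helper37.CF
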